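import Pool.Agent.W172.MK.Stm

set_option autoImplicit false

/-! MK-TM: measurability of the kernel. -/

open MeasureTheory ProbabilityTheory Filter Topology

namespace Pool.Agent.W271.MK

open Pool.Agent.W172.MK

theorem term_meas (h1 : P_DDL) (n M : ℕ) (eps : Fin (M + 1) → V n → ℝ) (t : ℕ) :
    Measurable (fun w : St n M × St n M => term eps w.1 w.2 t) := by
  obtain ⟨-, -, hm, -⟩ := h1 n M eps
  have hco : ∀ b : V n, Measurable (fun c : Fin (M + 1) => eps c b) := fun b =>
    measurable_of_countable _
  have hy : ∀ b : V n, Measurable (fun s : (ℕ → Fin (M + 1)) × (ℕ → Fin (M + 1)) =>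
      eps (s.1 t) b) := fun b =>
    (hco b).comp ((measurable_pi_apply t).comp measurable_fst)
  have hz : ∀ b : V n, Measurable (fun s : (ℕ → Fin (M + 1)) × (ℕ → Fin (M + 1)) =>
      eps (s.2 t) b) := fun b =>
    (hco b).comp ((measurable_pi_apply t).comp measurable_snd)
  have hE : ∀ a : V n, Measurable (fun s : (ℕ → Fin (M + 1)) × (ℕ → Fin (M + 1)) =>
      cE eps s.1 s.2 t a) := by
    intro a
    unfold cE hat
    refine Measurable.neg (Measurable.div_const ?_ _)
    refine Finset.measurable_fun_sum _ fun b _ => ?_
    exact (((hm t b)).mul (measurable_const.sub ((hy b).mul (hz b)))).mul_const _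
  have hO : ∀ a : V n, Measurable (fun s : (ℕ → Fin (M + 1)) × (ℕ → Fin (M + 1)) =>
      cO eps s.1 s.2 t a) := by
    intro a
    unfold cO hat
    refine Measurable.neg (Measurable.div_const ?_ _)
    refine Finset.measurable_fun_sum _ fun b _ => ?_
    exact (((hm t b)).mul ((hy b).sub (hz b))).mul_const _
  have hF : Measurable (fun w : (Col n × Col n) × ((ℕ → Fin (M + 1)) × (ℕ → Fin (M + 1))) =>
      term eps (w.1.1, w.2.1) (w.1.2, w.2.2) t) := by
    apply measurable_from_prod_countable_right
    intro c
    unfold term
    by_cases hc : c.1.1 = c.2.1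
    · simp only [hc, if_true]
      exact hE _
    · simp only [hc, if_false]
      exact hO _
  exact hF.comp ((measurable_fst.fst.prodMk measurable_snd.fst).prodMk
    (measurable_fst.snd.prodMk measurable_snd.snd))

theorem tm (h1 : P_DDL) (h2 : P_BND) : P_TM := by
  intro n M eps
  refine ⟨term_meas h1 n M eps, fun hG => ?_⟩
  unfold Function.uncurry pp
  refine Measurable.ite ?_ measurable_const (measurable_const.add ?_)
  · have hmap : Measurable (fun w : St n M × St n M => (w.1.1, w.2.1)) :=
      measurable_fst.fst.prodMk measurable_snd.fst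
    have hs : MeasurableSet {c : Col n × Col n | c.1 = c.2} := (Set.toFinite _).measurableSet
    exact hmap hs
  · refine measurable_of_tendsto_metrizable (f := fun (N : ℕ) (w : St n M × St n M) =>
      ∑ t ∈ Finset.range N, term eps w.1 w.2 t) (fun N => ?_) ?_
    · exact Finset.measurable_fun_sum _ fun t _ => term_meas h1 n M eps t
    · rw [tendsto_pi_nhds]
      intro w
      have hs : Summable (fun t => term eps w.1 w.2 t) :=
        ((h2 n M eps hG w.1 w.2).1).of_abs
      exact hs.hasSum.tendsto_sum_nat

end Pool.Agent.W271.MK
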